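import Mathlib
import Pool.Agent.H759R2.Kad.Props4

open scoped ComplexOrder InnerProductSpace ComplexConjugate
open Finset

noncomputable section

namespace H759R2.Kad

set_option linter.unusedSectionVars false

universe u v

namespace S01

variable {B : Type u} [CStarAlgebra B] [PartialOrder B] [StarOrderedRing B]

lemma proj_norm_le {e : B} (he : IsSelfAdjoint e) (hee : e * e = e) : ‖e‖ ≤ 1 := by
  have h : ‖e‖ * ‖e‖ = ‖e‖ := by
    rw [← CStarRing.norm_star_mul_self, he.star_eq, hee]
  by_contra hc
  push Not at hc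
  have h2 : ‖e‖ * ‖e‖ > ‖e‖ * 1 := by
    apply mul_lt_mul_of_pos_left hc
    linarith
  rw [h] at h2
  linarith

lemma one_norm_le : ‖(1 : B)‖ ≤ 1 := proj_norm_le (IsSelfAdjoint.one B) (one_mul 1)

/-- abstract algebra of the feedback: first estimate -/
lemma stT (V e y : B) (hVV : star V * V = 1) (he : star e = e) (hee : e * e = e)
    (r : ℂ) (hr : star r = r) (hey : e * y = y)
    (hk : r • (e * V * y) = y - e) :
    star ((1 - e) * V * ((1 - e) + r • (y * V * (1 - e)))) *
      ((1 - e) * V * ((1 - e) + r • (y * V * (1 - e)))) =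
    (1 - e) - (1 - r ^ 2) • (star (y * V * (1 - e)) * (y * V * (1 - e))) := by
  set X : B := (1 - e) + r • (y * V * (1 - e)) with hX
  set R : B := y * V * (1 - e) with hR
  have h1 : e * V * X = R := by
    rw [hX, mul_add, mul_smul_comm]
    have : e * V * (y * V * (1 - e)) = (e * V * y) * (V * (1 - e)) := by noncomm_ring
    rw [this, ← smul_mul_assoc, hk, hR]
    noncomm_ring
  have h2 : star ((1 - e) * V * X) * ((1 - e) * V * X) = star X * X - star (e * V * X) * (e * V * X) := by
    have e1 : star ((1 - e) * V * X) * ((1 - e) * V * X)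
        = star X * (star V * ((1 - e) * (1 - e)) * V) * X := by
      rw [star_mul, star_mul, star_sub, star_one, he]; noncomm_ring
    have e2 : star (e * V * X) * (e * V * X) = star X * (star V * (e * e) * V) * X := by
      rw [star_mul, star_mul, he]; noncomm_ring
    have e3 : (1 - e) * (1 - e) = 1 - e := by
      have : (1 - e) * (1 - e) = 1 - e - e + e * e := by noncomm_ring
      rw [this, hee]; noncomm_ring
    rw [e1, e2, e3, hee]
    have e4 : star V * (1 - e) * V = 1 - star V * e * V := by
      have : star V * (1 - e) * V = star V * V - star V * e * V := by noncomm_ring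
      rw [this, hVV]
    rw [e4]; noncomm_ring
  have h3 : (1 - e) * R = 0 := by
    have : (1 - e) * R = (y - e * y) * V * (1 - e) := by rw [hR]; noncomm_ring
    rw [this, hey]; noncomm_ring
  have h3' : star R * (1 - e) = 0 := by
    have := congrArg star h3
    rw [star_mul, star_sub, star_one, he, star_zero] at this
    exact this
  have h4 : star X * X = (1 - e) + (r ^ 2) • (star R * R) := by
    have e3 : (1 - e) * (1 - e) = 1 - e := by
      have : (1 - e) * (1 - e) = 1 - e - e + e * e := by noncomm_ring
      rw [this, hee]; noncomm_ring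
    rw [hX, star_add, star_smul, star_sub, star_one, he, hr]
    rw [add_mul, mul_add, mul_add, e3, mul_smul_comm, smul_mul_assoc, smul_mul_assoc,
      mul_smul_comm, h3, h3', smul_smul]
    simp [pow_two]
  rw [h2, h1, h4, sub_smul, one_smul]
  abel

/-- abstract algebra of the feedback: second estimate -/
lemma stZ (V e y : B) (hVV : star V * V = 1) (he : star e = e) (hee : e * e = e)
    (r : ℂ) (hr : star r = r) (hey : e * y = y)
    (hk : r • (e * V * y) = y - e) :
    star ((1 - e) * V * y) * ((1 - e) * V * y) =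
    (star y + y - e) - (1 - r ^ 2) • (star (e * V * y) * (e * V * y)) := by
  have h2 : star ((1 - e) * V * y) * ((1 - e) * V * y) = star y * y - star (e * V * y) * (e * V * y) := by
    have e1 : star ((1 - e) * V * y) * ((1 - e) * V * y)
        = star y * (star V * ((1 - e) * (1 - e)) * V) * y := by
      rw [star_mul, star_mul, star_sub, star_one, he]; noncomm_ring
    have e2 : star (e * V * y) * (e * V * y) = star y * (star V * (e * e) * V) * y := by
      rw [star_mul, star_mul, he]; noncomm_ring
    have e3 : (1 - e) * (1 - e) = 1 - e := by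
      have : (1 - e) * (1 - e) = 1 - e - e + e * e := by noncomm_ring
      rw [this, hee]; noncomm_ring
    rw [e1, e2, e3, hee]
    have e4 : star V * (1 - e) * V = 1 - star V * e * V := by
      have : star V * (1 - e) * V = star V * V - star V * e * V := by noncomm_ring
      rw [this, hVV]
    rw [e4]; noncomm_ring
  have hye : star y * e = star y := by
    have := congrArg star hey
    rw [star_mul, he] at this
    exact this
  have h5 : (r ^ 2) • (star (e * V * y) * (e * V * y)) = star y * y - star y - y + e := by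
    have : (r ^ 2) • (star (e * V * y) * (e * V * y)) =
        star (r • (e * V * y)) * (r • (e * V * y)) := by
      rw [star_smul, hr, smul_mul_assoc, mul_smul_comm, smul_smul, pow_two]
    rw [this, hk, star_sub, he]
    have : (star y - e) * (y - e) = star y * y - star y * e - e * y + e * e := by noncomm_ring
    rw [this, hye, hey, hee]
  rw [h2, sub_smul, one_smul, h5]
  abel

end S01

theorem prove4_alg : S_alg.{u} := by
  intro B _ _ _ V e hV he hee ρ h0 h1
  have hVV : star V * V = 1 := Unitary.star_mul_self_of_mem hV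
  have he' : star e = e := he.star_eq
  have hne : ‖e‖ ≤ 1 := S01.proj_norm_le he hee
  have hn1 : ‖(1 : B)‖ ≤ 1 := S01.one_norm_le
  have hnV : ‖V‖ ≤ 1 := by
    have : ‖V‖ * ‖V‖ ≤ 1 := by
      rw [← CStarRing.norm_star_mul_self, hVV]; exact hn1
    nlinarith [norm_nonneg V]
  set r : ℂ := (ρ : ℂ) with hr
  have hrs : star r = r := by rw [hr]; exact Complex.conj_ofReal ρ
  set W : B := e * V * e with hW
  have hnW : ‖W‖ ≤ 1 := by
    calc ‖W‖ ≤ ‖e‖ * ‖V‖ * ‖e‖ := by
          rw [hW]
          refine (norm_mul_le _ _).trans ?_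
          gcongr
          exact norm_mul_le _ _
      _ ≤ 1 * 1 * 1 := by gcongr
      _ = 1 := by norm_num
  have hnr : ‖r‖ = ρ := by rw [hr, Complex.norm_real, Real.norm_of_nonneg h0]
  have hnrW : ‖r • W‖ < 1 := by
    rw [norm_smul, hnr]
    nlinarith [norm_nonneg W]
  set Y : B := ↑((Units.oneSub (r • W) hnrW)⁻¹ : Bˣ) with hYdef
  have hY1 : Y * (1 - r • W) = 1 := by
    have := Units.inv_mul (Units.oneSub (r • W) hnrW)
    rw [Units.val_oneSub] at this
    exact this
  have hY2 : (1 - r • W) * Y = 1 := by
    have := Units.mul_inv (Units.oneSub (r • W) hnrW)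
    rw [Units.val_oneSub] at this
    exact this
  have hρ : 0 < 1 - ρ := by linarith
  have hnY : ‖Y‖ ≤ 1 / (1 - ρ) := by
    have hYe : Y = 1 + Y * (r • W) := by
      have : Y * (1 - r • W) = Y - Y * (r • W) := by rw [mul_sub, mul_one]
      rw [this] at hY1
      rw [← hY1]; abel
    have h2 : ‖Y‖ ≤ 1 + ‖Y‖ * ρ := by
      calc ‖Y‖ = ‖1 + Y * (r • W)‖ := by rw [← hYe]
        _ ≤ ‖(1 : B)‖ + ‖Y * (r • W)‖ := norm_add_le _ _
        _ ≤ 1 + ‖Y‖ * ρ := by
          have : ‖r • W‖ ≤ ρ := by
            rw [norm_smul, hnr]; nlinarith [norm_nonneg W]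
          have h3 : ‖Y * (r • W)‖ ≤ ‖Y‖ * ρ :=
            (norm_mul_le _ _).trans (mul_le_mul_of_nonneg_left this (norm_nonneg _))
          linarith
    rw [le_div_iff₀ hρ]
    linarith
  have heW : e * W = W := by
    have : e * W = (e * e) * V * e := by rw [hW]; noncomm_ring
    rw [this, hee]
  have hWe : W * e = W := by
    have : W * e = e * V * (e * e) := by rw [hW]; noncomm_ring
    rw [this, hee]
  have hcomm : e * (1 - r • W) = (1 - r • W) * e := by
    rw [mul_sub, sub_mul, mul_one, one_mul, mul_smul_comm, smul_mul_assoc, heW, hWe]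
  have heY : e * Y = Y * e := by
    calc e * Y = (Y * (1 - r • W)) * (e * Y) := by rw [hY1, one_mul]
      _ = Y * ((1 - r • W) * e) * Y := by noncomm_ring
      _ = Y * (e * (1 - r • W)) * Y := by rw [hcomm]
      _ = Y * e * ((1 - r • W) * Y) := by noncomm_ring
      _ = Y * e := by rw [hY2, mul_one]
  set y : B := Y * e with hy
  have hey : e * y = y := by
    calc e * y = (e * Y) * e := by rw [hy]; noncomm_ring
      _ = Y * (e * e) := by rw [heY, hy, mul_assoc]
      _ = y := by rw [hee]
  have hWy : (1 - r • W) * y = e := by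
    rw [hy, ← mul_assoc, hY2, one_mul]
  have hk : r • (e * V * y) = y - e := by
    have h3 : W * y = e * V * y := by
      calc W * y = e * V * (e * y) := by rw [hW, mul_assoc]
        _ = e * V * y := by rw [hey]
    rw [sub_mul, one_mul, smul_mul_assoc, h3] at hWy
    calc r • (e * V * y) = y - (y - r • (e * V * y)) := (sub_sub_cancel _ _).symm
      _ = y - e := by rw [hWy]
  have hne0 : (0 : B) ≤ e := by
    have := star_mul_self_nonneg e
    rwa [he', hee] at this
  have hsq : (0 : ℝ) ≤ 1 - ρ ^ 2 := by nlinarith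
  -- nonnegativity of the dropped terms
  have hpos : ∀ x : B, (0 : B) ≤ (1 - r ^ 2) • (star x * x) := by
    intro x
    set c : ℂ := ((Real.sqrt (1 - ρ ^ 2) : ℝ) : ℂ) with hc
    have hcs : star c = c := Complex.conj_ofReal _
    have hc2 : c * c = 1 - r ^ 2 := by
      rw [hc, ← Complex.ofReal_mul, Real.mul_self_sqrt hsq, hr]
      push_cast; ring
    have := star_mul_self_nonneg (c • x)
    rwa [star_smul, hcs, smul_mul_assoc, mul_smul_comm, smul_smul, hc2] at this
  refine ⟨Y, hY1, hY2, ?_, ?_⟩
  · -- first norm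
    have hT : (1 - e) * V * (1 - e) + r • ((1 - e) * V * e * Y * e * V * (1 - e)) =
        (1 - e) * V * ((1 - e) + r • (y * V * (1 - e))) := by
      have h4 : (1 - e) * V * e * Y * e * V * (1 - e) =
          (1 - e) * V * (e * y) * V * (1 - e) := by rw [hy]; noncomm_ring
      rw [h4, hey, mul_add, mul_smul_comm]
      congr 2
      noncomm_ring
    rw [hT]
    set T : B := (1 - e) * V * ((1 - e) + r • (y * V * (1 - e))) with hTdef
    have h5 := S01.stT V e y hVV he' hee r hrs hey hk
    rw [← hTdef] at h5
    have h6 : star T * T ≤ 1 := by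
      rw [h5]
      have h7 := hpos (y * V * (1 - e))
      calc (1 - e) - (1 - r ^ 2) • (star (y * V * (1 - e)) * (y * V * (1 - e))) ≤ 1 - e :=
            sub_le_self _ h7
        _ ≤ 1 := sub_le_self _ hne0
    have h8 : ‖star T * T‖ ≤ ‖(1 : B)‖ :=
      CStarAlgebra.norm_le_norm_of_nonneg_of_le (star_mul_self_nonneg T) h6
    rw [CStarRing.norm_star_mul_self] at h8
    nlinarith [norm_nonneg T]
  · have hZ : (1 - e) * V * e * Y * e = (1 - e) * V * y := by
      have h4 : (1 - e) * V * e * Y * e = (1 - e) * V * (e * y) := by rw [hy]; noncomm_ring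
      rw [h4, hey]
    rw [hZ]
    set Z : B := (1 - e) * V * y with hZdef
    have h5 := S01.stZ V e y hVV he' hee r hrs hey hk
    rw [← hZdef] at h5
    have h6 : star Z * Z ≤ star y + y := by
      rw [h5]
      have h7 := hpos (e * V * y)
      calc (star y + y - e) - (1 - r ^ 2) • (star (e * V * y) * (e * V * y)) ≤ star y + y - e :=
            sub_le_self _ h7
        _ ≤ star y + y := sub_le_self _ hne0
    have h8 : ‖star Z * Z‖ ≤ ‖star y + y‖ :=
      CStarAlgebra.norm_le_norm_of_nonneg_of_le (star_mul_self_nonneg Z) h6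
    rw [CStarRing.norm_star_mul_self] at h8
    have hny : ‖y‖ ≤ 1 / (1 - ρ) := by
      calc ‖y‖ ≤ ‖Y‖ * ‖e‖ := norm_mul_le _ _
        _ ≤ (1 / (1 - ρ)) * 1 := by gcongr
        _ = 1 / (1 - ρ) := mul_one _
    have h9 : ‖star y + y‖ ≤ 2 * (1 / (1 - ρ)) := by
      refine (norm_add_le _ _).trans ?_
      rw [norm_star]; linarith
    have h10 : (0 : ℝ) < 1 / (1 - ρ) := by positivity
    have h11 : 3 / (1 - ρ) = 3 * (1 / (1 - ρ)) := by ring
    rw [h11]
    nlinarith

end H759R2.Kad
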